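import Mathlib
import Pool.Agent.H39R3.PS.Defs

set_option autoImplicit false

namespace Pool.Agent.H9R4.PS

open Finset
open Pool.Agent.H476R2.Pal (PZ VZ sift rem Rem)

lemma cop {B k q : ℕ} (hq : 0 < q) (hk : q < 2 ^ k) : (q / q.gcd (B ^ k)).Coprime B := by
  by_contra h
  obtain ⟨p, hp, h1, h2⟩ := Nat.Prime.not_coprime_iff_dvd.mp h
  have hg : q.gcd (B ^ k) ∣ q := Nat.gcd_dvd_left _ _
  have ha : p ^ (q.factorization p) ∣ q.gcd (B ^ k) := by
    refine Nat.dvd_gcd (Nat.ordProj_dvd q p) ?_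
    have h3 : q.factorization p ≤ k := by
      by_contra hc
      have hc' : k ≤ q.factorization p := by omega
      have h4 := Nat.le_of_dvd hq (Nat.ordProj_dvd q p)
      have h5 : 2 ^ k ≤ p ^ (q.factorization p) :=
        (Nat.pow_le_pow_left hp.two_le k).trans (Nat.pow_le_pow_right hp.pos hc')
      omega
    exact (pow_dvd_pow p h3).trans (pow_dvd_pow_of_dvd h2 k)
  have h6 : p ^ (q.factorization p + 1) ∣ q := by
    rw [pow_succ]
    have h7 := Nat.mul_dvd_mul ha h1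
    rwa [Nat.mul_div_cancel' hg] at h7
  exact Nat.pow_succ_factorization_not_dvd hq.ne' hp h6

lemma card_mult {a m : ℕ} (ha : 0 < a) : ((range (a * m)).filter (fun r => a ∣ r)).card = m := by
  have h1 : (range (a * m)).filter (fun r => a ∣ r) = (range m).image (fun t => a * t) := by
    ext r
    simp only [mem_filter, mem_range, mem_image]
    constructor
    · rintro ⟨h1, t, rfl⟩
      exact ⟨t, lt_of_mul_lt_mul_left h1 (Nat.zero_le a), rfl⟩
    · rintro ⟨t, ht, rfl⟩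
      exact ⟨Nat.mul_lt_mul_of_pos_left ht ha, Dvd.intro t rfl⟩
  rw [h1, card_image_of_injective _ (fun x y h => Nat.eq_of_mul_eq_mul_left ha h), card_range]

lemma tot_pow {B k : ℕ} (hB : 1 ≤ B) (hk : k ≠ 0) :
    ((B ^ k).totient : ℝ) = (B.totient : ℝ) / B * ((B ^ k : ℕ) : ℝ) := by
  have h1 := Nat.totient_eq_mul_prod_factors (B ^ k)
  have h2 := Nat.totient_eq_mul_prod_factors B
  rw [Nat.primeFactors_pow _ hk] at h1
  have hB0 : (B : ℚ) ≠ 0 := by positivity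
  have h3 : ((B ^ k).totient : ℚ) * B = B.totient * ((B ^ k : ℕ) : ℚ) := by
    rw [h1, h2]
    ring
  have h4 : (B ^ k).totient * B = B.totient * B ^ k := by exact_mod_cast h3
  have h5 : ((B ^ k).totient : ℝ) * B = B.totient * ((B ^ k : ℕ) : ℝ) := by exact_mod_cast h4
  have hB1 : (B : ℝ) ≠ 0 := by positivity
  field_simp
  linarith

variable {ι : Type}

theorem partA {B k : ℕ} (hB : 1 ≤ B) (hB10 : B.Coprime 10) (hk : k ≠ 0) (S : Finset ι) (v : ι → ℕ)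
    (z : ℕ) (hz : B < z) (d : ℕ) :
    sift (S ×ˢ range (B ^ k)) (fun x => v x.1 * x.2.gcd (B ^ k)) d z =
      (B.totient : ℝ) / B * ((B ^ k : ℕ) : ℝ) * sift S v d z := by
  unfold sift
  have h1 : (S ×ˢ range (B ^ k)).filter (fun x => d ∣ v x.1 * x.2.gcd (B ^ k) ∧
      (v x.1 * x.2.gcd (B ^ k)).Coprime (PZ z)) =
      (S.filter (fun i => d ∣ v i ∧ (v i).Coprime (PZ z))) ×ˢ
        ((range (B ^ k)).filter (fun r => (B ^ k).Coprime r)) := by
    ext ⟨i, r⟩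
    simp only [mem_filter, mem_product]
    constructor
    · rintro ⟨⟨hi, hr⟩, hd, hc⟩
      have hc1 : (v i).Coprime (PZ z) := Nat.Coprime.coprime_mul_right hc
      have hc2 : (r.gcd (B ^ k)).Coprime (PZ z) := Nat.Coprime.coprime_mul_left hc
      have hg : r.gcd (B ^ k) = 1 := by
        by_contra hne
        obtain ⟨p, hp, hpg⟩ := Nat.exists_prime_and_dvd hne
        have hpB : p ∣ B := hp.dvd_of_dvd_pow (hpg.trans (Nat.gcd_dvd_right _ _))
        have hpP : p ∣ PZ z := by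
          unfold PZ
          refine dvd_prod_of_mem (fun p => p) (mem_filter.mpr ⟨mem_range.mpr
            (lt_of_le_of_lt (Nat.le_of_dvd hB hpB) hz), hp, fun h10 => ?_⟩)
          exact hp.one_lt.ne' (Nat.dvd_one.mp (hB10 ▸ Nat.dvd_gcd hpB h10))
        exact hp.one_lt.ne' (Nat.dvd_one.mp (hc2 ▸ Nat.dvd_gcd hpg hpP))
      rw [hg, mul_one] at hd
      exact ⟨⟨hi, hd, hc1⟩, hr, Nat.coprime_comm.mp hg⟩
    · rintro ⟨⟨hi, hd, hc⟩, hr, hg⟩
      have hg' : r.gcd (B ^ k) = 1 := Nat.coprime_comm.mp hg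
      rw [hg', mul_one]
      exact ⟨⟨hi, hr⟩, hd, hc⟩
  rw [h1, card_product, Nat.cast_mul, ← Nat.totient_eq_card_coprime, tot_pow hB hk]
  ring

theorem cnt {B k : ℕ} (_hB : 1 ≤ B) (S : Finset ι) (v : ι → ℕ)
    (hv : ∀ i ∈ S, (v i).Coprime B) {q : ℕ} (hq : 0 < q) (hqk : q < 2 ^ k) :
    ((S ×ˢ range (B ^ k)).filter (fun x => q ∣ v x.1 * x.2.gcd (B ^ k))).card =
      (S.filter (fun i => q / q.gcd (B ^ k) ∣ v i)).card * (B ^ k / q.gcd (B ^ k)) := by
  set q1 := q.gcd (B ^ k) with hq1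
  set q2 := q / q1 with hq2
  have hc : q2.Coprime B := cop hq hqk
  have hc' : q2.Coprime (B ^ k) := Nat.Coprime.pow_right _ hc
  have hg : q1 ∣ q := Nat.gcd_dvd_left _ _
  have hgM : q1 ∣ B ^ k := Nat.gcd_dvd_right _ _
  have hq12 : q1 * q2 = q := Nat.mul_div_cancel' hg
  have hq1p : 0 < q1 := Nat.gcd_pos_of_pos_left _ hq
  have h1 : (S ×ˢ range (B ^ k)).filter (fun x => q ∣ v x.1 * x.2.gcd (B ^ k)) =
      (S.filter (fun i => q2 ∣ v i)) ×ˢ ((range (B ^ k)).filter (fun r => q1 ∣ r)) := by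
    ext ⟨i, r⟩
    simp only [mem_filter, mem_product]
    constructor
    · rintro ⟨⟨hi, hr⟩, hd⟩
      refine ⟨⟨hi, ?_⟩, hr, ?_⟩
      · have h2 : q2 ∣ v i * r.gcd (B ^ k) := (Dvd.intro_left q1 hq12).trans hd
        exact (Nat.Coprime.coprime_dvd_right (Nat.gcd_dvd_right _ _) hc').dvd_of_dvd_mul_right h2
      · have h2 : q1 ∣ v i * r.gcd (B ^ k) := hg.trans hd
        have h3 : (B ^ k).Coprime (v i) := Nat.coprime_comm.mp (Nat.Coprime.pow_right _ (hv i hi))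
        have h4 : q1.Coprime (v i) := Nat.Coprime.coprime_dvd_left hgM h3
        exact (h4.dvd_of_dvd_mul_left h2).trans (Nat.gcd_dvd_left _ _)
    · rintro ⟨⟨hi, h2⟩, hr, h3⟩
      refine ⟨⟨hi, hr⟩, ?_⟩
      rw [← hq12, mul_comm]
      exact Nat.mul_dvd_mul h2 (Nat.dvd_gcd h3 hgM)
  rw [h1, card_product]
  congr 1
  obtain ⟨m, hm⟩ := hgM
  rw [hm, card_mult hq1p, Nat.mul_div_cancel_left _ hq1p]

theorem rem_eq {B k : ℕ} (hB : 1 ≤ B) (S : Finset ι) (v : ι → ℕ) (X : ℝ)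
    (hv : ∀ i ∈ S, (v i).Coprime B) {q : ℕ} (hq : 0 < q) (hqk : q < 2 ^ k) :
    rem (S ×ˢ range (B ^ k)) (fun x => v x.1 * x.2.gcd (B ^ k)) (X * ((B ^ k : ℕ) : ℝ)) q =
      ((B ^ k : ℕ) : ℝ) * (1 / (q.gcd (B ^ k) : ℕ)) * rem S v X (q / q.gcd (B ^ k)) := by
  unfold rem
  rw [cnt hB S v hv hq hqk]
  set q1 := q.gcd (B ^ k) with hq1
  set q2 := q / q1 with hq2
  have hg : q1 ∣ q := Nat.gcd_dvd_left _ _
  have hgM : q1 ∣ B ^ k := Nat.gcd_dvd_right _ _
  have hq12 : q1 * q2 = q := Nat.mul_div_cancel' hg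
  have hq1p : 0 < q1 := Nat.gcd_pos_of_pos_left _ hq
  have hq2p : 0 < q2 := by
    rcases Nat.eq_zero_or_pos q2 with h | h
    · rw [h, mul_zero] at hq12; omega
    · exact h
  obtain ⟨m, hm⟩ := hgM
  rw [hm, Nat.mul_div_cancel_left _ hq1p, ← hq12]
  have h1 : (q1 : ℝ) ≠ 0 := by positivity
  have h2 : (q2 : ℝ) ≠ 0 := by positivity
  push_cast
  field_simp

/-- the transfer -/
theorem taskTr : Pool.Agent.H39R3.PS.TaskTr := by
  intro B hB hB10 ι S v X D _ _ hv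
  have hk : ∀ q : ℕ, q ≤ ⌊D⌋₊ → q < 2 ^ (⌊D⌋₊ + 1) := fun q hq =>
    lt_of_lt_of_le (Nat.lt_of_le_of_lt hq (Nat.lt_two_pow_self))
      (Nat.pow_le_pow_right (by norm_num) (Nat.le_succ _))
  refine ⟨B ^ (⌊D⌋₊ + 1), fun x => v x.1 * x.2.gcd (B ^ (⌊D⌋₊ + 1)), by positivity,
    fun z hz d _ => partA hB hB10 (by omega) S v z hz d, ?_⟩
  set M := B ^ (⌊D⌋₊ + 1) with hM
  set F : ℕ × ℕ → ℝ := fun x => ((M : ℝ) * ((x.1.divisors.card : ℝ) ^ 2 / x.1)) *
    ((x.2.divisors.card : ℝ) ^ 2 * |rem S v X x.2|) with hF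
  have hF0 : ∀ x, 0 ≤ F x := by
    intro x
    simp only [hF]
    positivity
  have h1 : Rem (S ×ˢ range M) (fun x => v x.1 * x.2.gcd M) (X * (M : ℝ)) D =
      ∑ q ∈ (Icc 1 ⌊D⌋₊).filter (fun q => q.Coprime 10), F (q.gcd M, q / q.gcd M) := by
    unfold Rem
    refine sum_congr rfl fun q hq => ?_
    rw [mem_filter, mem_Icc] at hq
    have hq0 : 0 < q := hq.1.1
    have hq2 := hk q hq.1.2
    rw [hM, rem_eq hB S v X hv hq0 hq2, ← hM]
    have hg : q.gcd M ∣ q := Nat.gcd_dvd_left _ _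
    have hq12 : q.gcd M * (q / q.gcd M) = q := Nat.mul_div_cancel' hg
    have hc : (q / q.gcd M).Coprime M := Nat.Coprime.pow_right _ (cop hq0 hq2)
    have hc2 : (q.gcd M).Coprime (q / q.gcd M) :=
      Nat.Coprime.coprime_dvd_left (Nat.gcd_dvd_right _ _) (Nat.coprime_comm.mp hc)
    have h3 : q.divisors.card = (q.gcd M).divisors.card * (q / q.gcd M).divisors.card := by
      conv_lhs => rw [← hq12]
      exact hc2.card_divisors_mul
    rw [h3, abs_mul, abs_of_nonneg (by positivity)]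
    simp only [hF]
    push_cast
    ring
  rw [h1, ← sum_image (s := (Icc 1 ⌊D⌋₊).filter (fun q => q.Coprime 10))
    (g := fun q => (q.gcd M, q / q.gcd M)) (f := F)]
  · have h2 : ((Icc 1 ⌊D⌋₊).filter (fun q => q.Coprime 10)).image
        (fun q => (q.gcd M, q / q.gcd M)) ⊆
        (Icc 1 ⌊D⌋₊) ×ˢ ((Icc 1 ⌊D⌋₊).filter (fun q => q.Coprime (10 * B))) := by
      intro x hx
      rw [mem_image] at hx
      obtain ⟨q, hq, rfl⟩ := hx
      rw [mem_filter, mem_Icc] at hq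
      have hq0 : 0 < q := hq.1.1
      have hg : q.gcd M ∣ q := Nat.gcd_dvd_left _ _
      have hq1p : 0 < q.gcd M := Nat.gcd_pos_of_pos_left _ hq0
      have hq12 : q.gcd M * (q / q.gcd M) = q := Nat.mul_div_cancel' hg
      have hq2p : 0 < q / q.gcd M := by
        rcases Nat.eq_zero_or_pos (q / q.gcd M) with h | h
        · rw [h, mul_zero] at hq12; omega
        · exact h
      have hd2 : q / q.gcd M ∣ q := Nat.div_dvd_of_dvd hg
      simp only [mem_product, mem_filter, mem_Icc]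
      refine ⟨⟨hq1p, (Nat.le_of_dvd hq0 hg).trans hq.1.2⟩, ⟨hq2p, (Nat.div_le_self _ _).trans hq.1.2⟩,
        ?_⟩
      exact Nat.Coprime.mul_right (Nat.Coprime.coprime_dvd_left hd2 hq.2) (cop hq0 (hk q hq.1.2))
    refine (sum_le_sum_of_subset_of_nonneg h2 fun x _ _ => hF0 x).trans (le_of_eq ?_)
    have h3 : (M : ℝ) * (∑ q ∈ Icc 1 ⌊D⌋₊, (q.divisors.card : ℝ) ^ 2 / q) =
        ∑ q ∈ Icc 1 ⌊D⌋₊, (M : ℝ) * ((q.divisors.card : ℝ) ^ 2 / q) := mul_sum _ _ _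
    rw [sum_product, h3, sum_mul_sum]
  · intro a ha b hb hab
    simp only [Prod.mk.injEq] at hab
    have e1 : a.gcd M * (a / a.gcd M) = a := Nat.mul_div_cancel' (Nat.gcd_dvd_left _ _)
    have e2 : b.gcd M * (b / b.gcd M) = b := Nat.mul_div_cancel' (Nat.gcd_dvd_left _ _)
    exact e1.symm.trans ((congrArg₂ (· * ·) hab.1 hab.2).trans e2)

end Pool.Agent.H9R4.PS
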